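import Pool.Agent.H539R2.WitD

/-!
For every `c`: deterministic space `2 ^ (c * n)` is not contained in the nondeterministic class of
verifying `d`-dimensional cellular automata with witnesses of `2 ^ (c * n)` letters and time
`o((2 ^ (c * n) / log (2 ^ (c * n))) ^ (1 + 1 / d))`.
-/

namespace Pool.Agent.Results.MP_d5876b_lc.CAVerifiersExp

open Pool.Agent.H539R2 Filter

/-- For all `K ≥ 1` and `c ≥ 1` there is a deterministic one-tape Turing machine `A` working on
`2 ^ (c * n)` tape cells, accepting only words over the one-letter alphabet `{true}`, such that for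
every dimension `d ≥ 1` no cellular automaton on the grid `ℤ^d` verifying witnesses of `2 ^ (c * n)`
letters over an alphabet of size `K` accepts the language of `A` in time `T` whenever
`T n = o((2 ^ (c * n) / log (2 ^ (c * n))) ^ (1 + 1 / d))`. -/
theorem result (K c : ℕ) (hK : 1 ≤ K) (hc : 1 ≤ c) :
    ∃ A : STM, (∀ w, A.Acc (fun n => 2 ^ (c * n)) w → ∀ x ∈ w, x = true) ∧
      ∀ (d : ℕ) [NeZero d] (V : WCA d K) (T : ℕ → ℕ),
        (fun n => (T n : ℝ)) =o[atTop] (fun n : ℕ =>
          (((2 ^ (c * n) : ℕ) : ℝ) / Real.log ((2 ^ (c * n) : ℕ) : ℝ)) ^ (1 + 1 / (d : ℝ))) →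
        V.InTime (fun n => 2 ^ (c * n)) T →
        ¬ ∀ x, (A.Acc (fun n => 2 ^ (c * n)) x ↔ V.Acc (fun n => 2 ^ (c * n)) x) :=
  DD.TW.mainWexp K c hK hc

end Pool.Agent.Results.MP_d5876b_lc.CAVerifiersExp
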