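import Pool.Agent.H547U1.Cls

/-!
# Nondeterministic exponential time and exponential space over sets of Boolean functions

Padded input: `X = (1^N, x)` with `N = 2 ^ (p |x|)`, `p` a constant. `NEXPover B`: languages with
a verifier whose predicate on a string computed from `X` and on the witness has circuits of size
polynomial in `|X|` with gates from `B`. `EXPSPACEover B`: languages decided by iterating
`2 ^ |X|` times a map on configurations of length polynomial in `|X|`, each bit of which has
circuits of size polynomial in `|X|` with gates from `B`. `EXP`, `NEXP`, `EXPSPACE`: the same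
without the conditions on circuits.
-/

set_option autoImplicit false

namespace Pool.Agent.Results.MP_d5876b_lc.GateSetTrichotomy

open Pool.Agent.H547R6 Pool.Agent.H547R7 Pool.Agent.H547R8 Pool.Agent.H547R9
open Pool.Agent.H547U1

/-- **Trichotomy for NEXP and EXPSPACE over gate sets.** -/
theorem result (B : Set BFun) :
    ((B ⊆ Aff ∨ B ⊆ Conj ∨ B ⊆ Disj) → NEXPover B = EXP ∧ EXPSPACEover B = EXP) ∧
    (B ⊆ Mon → ¬ B ⊆ Aff → ¬ B ⊆ Conj → ¬ B ⊆ Disj →
      NEXPover B = EXP ∧ EXPSPACEover B = EXPSPACE) ∧
    (¬ B ⊆ Mon → ¬ B ⊆ Aff → NEXPover B = NEXP ∧ EXPSPACEover B = EXPSPACE) := by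
  refine ⟨fun h => ⟨?_, space_easy B h⟩, fun hM hA hC hD => ⟨ndet_easy B (Or.inr hM),
    space_hard B hA hC hD⟩, fun hM hA => ⟨ndet_hard B hM hA, space_hard B hA
      (fun h => hM (h.trans conj_mon)) (fun h => hM (h.trans disj_mon))⟩⟩
  rcases h with h | h | h
  · exact ndet_easy B (Or.inl h)
  · exact ndet_easy B (Or.inr (h.trans conj_mon))
  · exact ndet_easy B (Or.inr (h.trans disj_mon))

end Pool.Agent.Results.MP_d5876b_lc.GateSetTrichotomy
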