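import Pool.Agent.H622R2.Exp.FinalP

/-!
# How many oracles make `NE` and `ESPACE` equal?

For every gauge `f`, the set of the oracles `A` with `NE^A = ESPACE^A` is a null set for `f` if and
only if for every `ε > 0` there are infinitely many `N` with `f N ≤ (log N) ^ ε`. The same holds
for every set of oracles which contains all `A` with `E^A = ESPACE^A` and such that `ESPACE^A` is
contained in the (linear-)exponential hierarchy relative to `A` for all its elements `A`. The set
of the oracles `A` with `NEXP^A = EXPSPACE^A` is a null set for `f` if and only if for every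
`ε > 0` there are infinitely many `N` with `f N ≤ 2 ^ ((log log N) ^ ε)`.
-/

namespace Pool.Agent.Results.MP_d5876b_lc.GaugeThreshold

open Pool.Agent.NPC Pool.Agent.H620R2.Gauge Pool.Agent.H622R2.Exp Filter

theorem result (f : ℕ → ℝ) :
    (∀ O : Set Oracle,
      (∀ A : Oracle, (∀ L, InSpace Lin A L → InTime Lin A L) → A ∈ O) →
      (∀ A ∈ O, ∀ L, InSpace Lin A L → InAlt Lin A L) →
      (Null f O ↔
        ∀ ε : ℝ, 0 < ε → ∃ᶠ N : ℕ in atTop, f N ≤ (Real.logb 2 N) ^ ε)) ∧
    (Null f {A : Oracle | ∀ L, InNTime Lin A L ↔ InSpace Lin A L} ↔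
      ∀ ε : ℝ, 0 < ε → ∃ᶠ N : ℕ in atTop, f N ≤ (Real.logb 2 N) ^ ε) ∧
    (Null f {A : Oracle | ∀ L, InNTime Pol A L ↔ InSpace Pol A L} ↔
      ∀ ε : ℝ, 0 < ε → ∃ᶠ N : ℕ in atTop,
        f N ≤ 2 ^ (Real.logb 2 (Real.logb 2 N)) ^ ε) :=
  resNES f

end Pool.Agent.Results.MP_d5876b_lc.GaugeThreshold
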